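import Mathlib
import Pool.Agent.H964.LF.Stm

set_option autoImplicit false

namespace Pool.Agent.H404.LF

open MeasureTheory Pool.Agent.H964.LF
open scoped ENNReal

theorem mid_update {ι : Type} [DecidableEq ι] (x y : ι → ℝ) (i : ι) (a b : ℝ) :
    mid (Function.update x i a) (Function.update y i b) =
      Function.update (mid x y) i ((a + b) / 2) := by
  funext v
  unfold mid
  by_cases hv : v = i
  · rw [hv, Function.update_self, Function.update_self, Function.update_self]
  · rw [Function.update_of_ne hv, Function.update_of_ne hv, Function.update_of_ne hv]

theorem t_PLM : S_PL1 → S_PLM := by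
  intro h1 ι _ s f g h hf hg hh H
  induction s using Finset.induction_on with
  | empty =>
    intro x y
    unfold mg
    rw [lmarginal_empty, lmarginal_empty, lmarginal_empty]
    exact H x y
  | insert i s hi ih =>
    intro x y
    unfold mg
    rw [lmarginal_insert f hf hi, lmarginal_insert g hg hi, lmarginal_insert h hh hi]
    refine h1 _ _ _ ((hf.lmarginal _).comp (measurable_update x))
      ((hg.lmarginal _).comp (measurable_update y))
      ((hh.lmarginal _).comp (measurable_update (mid x y))) fun a b => ?_
    have h2 := ih (Function.update x i a) (Function.update y i b)
    rw [mid_update] at h2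
    exact h2

end Pool.Agent.H404.LF
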